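import Pool.Agent.H15.TG.Targets

/-!
# MP_51eb24_ag, board tga_modules, row CSP
-/

set_option autoImplicit false

open MvPolynomial Pool.Agent.H2.ST Pool.Agent.H15.TG

namespace Pool.Agent.H88.TG

theorem pf_CSP (hCGR : T_CGR) : T_CSP := by
  intro k _ _ _ m d W K H f h ψ π x hψ hπ hπC hπW hx hD
  obtain ⟨hx0, hxC, hxW, hπx, hxm⟩ := hx
  have hbr0 : ∀ (χ : Fin d → ℤ) (g : Pol k m), g ∈ Cf K f → g ∈ W χ → br g x = 0 := by
    intro χ g hg hgW
    rw [hD.2 χ g hg hgW]
    simp
  have hbr : ∀ g ∈ Cf K f, br g x = 0 := by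
    intro g hg
    have h1 := cmp_sum h.toGr g
    rw [← h1, Finsupp.sum, sum_br]
    refine Finset.sum_eq_zero fun χ _ => ?_
    obtain ⟨h2, h3⟩ := hCGR k m d W K H f h.toFd g hg χ
    exact hbr0 χ _ h2 h3
  have hce := h.ce x (mem_Cf.1 hxC).1 hxW hbr
  rw [Algebra.adjoin_singleton_eq_range_aeval] at hce
  obtain ⟨Q, hQ⟩ := hce
  have hQx : Polynomial.aeval f Q = x := hQ
  have hvan : constantCoeff π = 0 := h.van ψ hψ π hπW
  have hdv0 : ∀ c : k, π ∣ C c → c = 0 := by
    rintro c ⟨t, ht⟩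
    have h1 := congrArg constantCoeff ht
    rw [map_mul, hvan, zero_mul, constantCoeff_C] at h1
    exact h1
  have hQ0 : Q ≠ 0 := by
    rintro rfl
    apply hx0
    rw [← hQx, map_zero]
  -- a root
  have hroot : ∃ c : k, π ∣ f - C c := by
    have h1 := (IsAlgClosed.splits Q).eq_prod_roots
    rw [h1, map_mul, Polynomial.aeval_C, map_multiset_prod, Multiset.map_map] at hQx
    rw [← hQx] at hπx
    rcases hπ.dvd_or_dvd hπx with h2 | h2
    · exact absurd (hdv0 _ h2) (Polynomial.leadingCoeff_ne_zero.2 hQ0)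
    · obtain ⟨c, -, hc⟩ := hπ.exists_mem_multiset_map_dvd h2
      refine ⟨c, ?_⟩
      have h3 : (Polynomial.aeval f) (Polynomial.X - Polynomial.C c) = f - C c := by
        rw [map_sub, Polynomial.aeval_X, Polynomial.aeval_C]
        rfl
      rw [← h3]
      exact hc
  obtain ⟨c, hc⟩ := hroot
  have hc0 : c = 0 := by
    obtain ⟨t, ht⟩ := hc
    have h1 := congrArg constantCoeff ht
    rw [map_mul, hvan, zero_mul, map_sub, h.fc0, zero_sub, constantCoeff_C, neg_eq_zero] at h1
    exact h1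
  rw [hc0, map_zero, sub_zero] at hc
  have hfC : f ∈ Cf K f := mem_Cf.2 ⟨h.fK, br_self f⟩
  have hfx : f ∣ x := by
    have h1 : constantCoeff x = 0 := by
      obtain ⟨t, ht⟩ := hπx
      rw [ht, map_mul, hvan, zero_mul]
    have h2 : Q.coeff 0 = 0 := by
      rw [← hQx] at h1
      have h3 := Polynomial.X_mul_divX_add Q
      rw [← h3, map_add, map_mul, Polynomial.aeval_X, Polynomial.aeval_C, map_add, map_mul,
        h.fc0, zero_mul, zero_add] at h1
      have h4 : constantCoeff (algebraMap k (Pol k m) (Q.coeff 0)) = Q.coeff 0 :=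
        constantCoeff_C _ _
      rw [h4] at h1
      exact h1
    have h3 := Polynomial.X_mul_divX_add Q
    rw [h2, map_zero, add_zero] at h3
    rw [← hQx, ← h3, map_mul, Polynomial.aeval_X]
    exact dvd_mul_right _ _
  exact ⟨h.fn, hfC, h.f0, hc, fun y hy hyW hπy => hfx.trans (hxm y hy hyW hπy)⟩

end Pool.Agent.H88.TG
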