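import Pool.Agent.H15.TG.Targets

/-!
# MP_51eb24_ag, board tga_modules, row DVR
-/

set_option autoImplicit false

open MvPolynomial Pool.Agent.H2.ST Pool.Agent.H15.TG

namespace Pool.Agent.H88.TG

theorem coeff_lin {k : Type} [Field k] {m d : ℕ} (χ : Fin d → ℤ) (p : Fin d → Pol k m)
    (n : Fin m ⊕ Fin m →₀ ℕ) : coeff n (∑ j, ((χ j : ℤ) : k) • p j) =
      ∑ j, coeff n (p j) * ((χ j : ℤ) : k) := by
  rw [coeff_sum]
  refine Finset.sum_congr rfl fun j _ => ?_
  rw [coeff_smul, smul_eq_mul, mul_comm]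

theorem pf_DVR (hCOC : T_COC) : T_DVR := by
  intro k _ _ _ m d W K H f h
  refine ⟨?_, ?_, ?_, ?_, ?_⟩
  · intro x y y' hy hy'
    have h1 : ∀ χ, Oc W K χ → ∑ j, ((χ j : ℤ) : k) • (y j - y' j) = 0 := by
      intro χ hχ
      obtain ⟨g, hgC, hgW, hg0⟩ := hCOC k m d W K H f h χ hχ
      have e1 := hy.2 χ g hgC hgW
      have e2 := hy'.2 χ g hgC hgW
      rw [e1, neg_inj] at e2
      have e3 := mul_left_cancel₀ hg0 e2
      simp only [smul_sub]
      rw [Finset.sum_sub_distrib, e3, sub_self]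
    funext j
    rw [← sub_eq_zero]
    ext n
    rw [coeff_zero]
    have h2 := h.sp (fun j => coeff n (y j - y' j)) (by
      intro χ hχ
      have h3 := coeff_lin χ (fun j => y j - y' j) n
      rw [← h3, h1 χ hχ, coeff_zero])
    exact congrFun h2 j
  · intro x y hy j hyj
    obtain ⟨n, hn1, hn2⟩ := Finset.exists_mem_eq_sup (y j).support
      (support_nonempty.2 hyj) (fun s => s.sum fun _ e => e)
    have hdeg : (y j).totalDegree = n.sum fun _ e => e := hn2
    have h2 : ∃ χ, Oc W K χ ∧ ∑ i, coeff n (y i) * ((χ i : ℤ) : k) ≠ 0 := by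
      by_contra hcon
      push Not at hcon
      have h3 := h.sp (fun i => coeff n (y i)) hcon
      exact (mem_support_iff.1 hn1) (congrFun h3 j)
    obtain ⟨χ, hχ, hne⟩ := h2
    rw [← coeff_lin χ y n] at hne
    obtain ⟨g, hgC, hgW, hg0⟩ := hCOC k m d W K H f h χ hχ
    have hL0 : ∑ j, ((χ j : ℤ) : k) • y j ≠ 0 := by
      intro h0
      rw [h0, coeff_zero] at hne
      exact hne rfl
    have hb := hy.2 χ g hgC hgW
    have hb0 : br g x ≠ 0 := by
      rw [hb]
      exact neg_ne_zero.2 (mul_ne_zero hg0 hL0)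
    have h3 := deg_br g x hb0
    rw [hb, totalDegree_neg, totalDegree_mul_of_isDomain hg0 hL0] at h3
    have h4 := le_totalDegree (mem_support_iff.2 hne)
    rw [← hdeg] at h4
    omega
  · intro x x' y y' hy hy'
    by_cases hm : x ∈ Cf K f ∧ x ∈ W 0 ∧ x' ∈ Cf K f ∧ x' ∈ W 0
    · left
      obtain ⟨hx, hx0, hx', hx'0⟩ := hm
      refine ⟨⟨?_, ?_⟩, ⟨?_, ?_⟩⟩
      · intro j
        exact ⟨(Cf K f).add_mem (hy.1 j).1 (hy'.1 j).1, (W 0).add_mem (hy.1 j).2 (hy'.1 j).2⟩
      · intro χ g hg hgW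
        rw [br_add, hy.2 χ g hg hgW, hy'.2 χ g hg hgW]
        simp only [smul_add]
        rw [Finset.sum_add_distrib]
        ring
      · intro j
        refine ⟨(Cf K f).add_mem ((Cf K f).mul_mem hx (hy'.1 j).1)
          ((Cf K f).mul_mem hx' (hy.1 j).1), (W 0).add_mem ?_ ?_⟩
        · have := mul_mem_gr h.toGr hx0 (hy'.1 j).2
          rwa [add_zero] at this
        · have := mul_mem_gr h.toGr hx'0 (hy.1 j).2
          rwa [add_zero] at this
      · intro χ g hg hgW
        rw [br_mul, hy.2 χ g hg hgW, hy'.2 χ g hg hgW]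
        have e1 : ∑ j, ((χ j : ℤ) : k) • (x * y' j + x' * y j) =
            x * ∑ j, ((χ j : ℤ) : k) • y' j + x' * ∑ j, ((χ j : ℤ) : k) • y j := by
          rw [Finset.mul_sum, Finset.mul_sum, ← Finset.sum_add_distrib]
          refine Finset.sum_congr rfl fun j _ => ?_
          rw [smul_add, mul_smul_comm, mul_smul_comm]
        rw [e1]
        ring
    · exact Or.inr hm
  · intro i
    refine ⟨?_, ?_⟩
    · intro j
      show (if j = i then (1 : Pol k m) else 0) ∈ Cf K f ∧
        (if j = i then (1 : Pol k m) else 0) ∈ W 0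
      split_ifs
      · exact ⟨(Cf K f).one_mem, h.one⟩
      · exact ⟨(Cf K f).zero_mem, (W 0).zero_mem⟩
    · intro χ g hg hgW
      rw [br_anti, h.eu i χ g (mem_Cf.1 hg).1 hgW]
      congr 1
      have e1 : ∑ j, ((χ j : ℤ) : k) • (if j = i then (1 : Pol k m) else 0) =
          ((χ i : ℤ) : k) • (1 : Pol k m) := by
        rw [Finset.sum_eq_single i]
        · rw [if_pos rfl]
        · intro j _ hj
          rw [if_neg hj, smul_zero]
        · intro h
          exact absurd (Finset.mem_univ _) h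
      rw [e1, mul_smul_comm, mul_one]
  · intro c
    refine ⟨fun j => ⟨(Cf K f).zero_mem, (W 0).zero_mem⟩, ?_⟩
    intro χ g hg hgW
    rw [br_C]
    simp

end Pool.Agent.H88.TG
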