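import Pool.Agent.H15.TG.Targets

/-!
# MP_51eb24_ag, board tga_modules, row HMG
-/

set_option autoImplicit false

open MvPolynomial Pool.Agent.H2.ST Pool.Agent.H15.TG

namespace Pool.Agent.H88.TG

theorem pf_HMG (hPSG : T_PSG) : T_HMG := by
  classical
  intro k _ _ m d Γ _ W w S ϖ u v c Θ h hΘ χ g hg hgco
  obtain ⟨hP1, -, hP3, -⟩ := hPSG k m Γ W w S ϖ u v c h
  -- the components of `g` have the image `χ`
  let N : Submodule k (Pol k m) :=
    { carrier := {x | ∀ a, Θ a ≠ χ → cmp h.toGr x a = 0}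
      add_mem' := by
        intro x y hx hy a ha
        rw [map_add, Finsupp.add_apply, hx a ha, hy a ha, add_zero]
      zero_mem' := by
        intro a _
        rw [map_zero, Finsupp.zero_apply]
      smul_mem' := by
        intro r x hx a ha
        rw [map_smul, Finsupp.smul_apply, hx a ha, smul_zero] }
  have hco : co W Θ χ ≤ N := by
    refine iSup₂_le fun a ha x hx b hb => ?_
    rw [cmp_of_mem h.toGr hx, Finsupp.single_apply, if_neg]
    rintro rfl
    exact hb ha
  have hcomp : ∀ a, cmp h.toGr g a ≠ 0 → Θ a = χ := by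
    intro a ha
    by_contra hne
    exact ha (hco hgco a hne)
  by_cases h0 : ∀ a, cmp h.toGr g a = 0
  · exact ⟨0, mem_of_cmp h.toGr fun b _ => h0 b⟩
  push Not at h0
  obtain ⟨a, ha⟩ := h0
  have hex : ∀ b, cmp h.toGr g b ≠ 0 → ∃ e : Fin m → ℤ, b = ∑ i, e i • w i ∧
      ∀ i, S i → e i = 0 := by
    intro b hb
    obtain ⟨e, he⟩ := h.wt b _ (cmp_mem h.toGr g b) hb
    refine ⟨e, he, ?_⟩
    intro i hi
    have h1 := hP3 b _ (hP1 g hg b) (cmp_mem h.toGr g b) hb i hi
    rw [he, map_sum, Finset.sum_eq_single i, map_zsmul] at h1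
    · rw [smul_eq_mul] at h1
      rcases mul_eq_zero.1 h1 with h2 | h2
      · exact h2
      · exact absurd h2 (h.par i hi).pa.ne'
    · intro j _ hj
      rw [map_zsmul, h.pz i hi j hj, smul_zero]
    · intro h
      exact absurd (Finset.mem_univ _) h
  refine ⟨a, mem_of_cmp h.toGr fun b hb => ?_⟩
  by_contra hb0
  apply hb
  obtain ⟨e, he, he0⟩ := hex a ha
  obtain ⟨e', he', he'0⟩ := hex b hb0
  have h1 : ∑ i, (e' i - e i) • w i = b - a := by
    simp only [sub_smul]
    rw [Finset.sum_sub_distrib, ← he, ← he']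
  have h2 := hΘ (fun i => e' i - e i) (fun i hi => by rw [he0 i hi, he'0 i hi, sub_zero]) (by
    rw [h1, map_sub, hcomp a ha, hcomp b hb0, sub_self])
  rw [h1] at h2
  exact sub_eq_zero.1 h2

end Pool.Agent.H88.TG
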