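import Pool.Agent.H15.TG.Targets

/-!
# MP_51eb24_ag, board tga_modules, row NEG
-/

set_option autoImplicit false

open MvPolynomial Pool.Agent.H2.ST Pool.Agent.H15.TG

namespace Pool.Agent.H88.TG

theorem pf_NEG (hCKP : T_CKP) (hPPC : T_PPC) : T_NEG := by
  intro k _ _ _ m d W K H f π ψ a c0 h i χ s N r hsK hsW hdv hN hri hrel
  by_cases hχ : χ = 0
  · rw [hχ] at hsW
    obtain ⟨c, hc⟩ := hCKP k m d W K H f π ψ a c0 h i s hsK hsW hdv
    exact ⟨c, hc, fun h => absurd hχ h⟩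
  have hπK : ∀ j, π j ∈ K := fun j => (mem_Cf.1 (h.hp j)).1
  have hvan : constantCoeff s = 0 := h.van χ hχ s hsW
  have hvanp : constantCoeff (π i) = 0 := h.van (ψ i) (h.ψ0 i) (π i) (h.wp i)
  have hyK : s ^ N * ∏ j, π j ^ r j ∈ K :=
    K.mul_mem (K.pow_mem hsK N) (K.prod_mem fun j _ => K.pow_mem (hπK j) _)
  have hyW : s ^ N * ∏ j, π j ^ r j ∈ W 0 := by
    have h1 := pow_mem_gr h.toGr hsW N
    have h2 := prod_mem_gr h.toGr Finset.univ (fun j => r j • ψ j) (fun j => π j ^ r j)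
      (fun j _ => pow_mem_gr h.toGr (h.wp j) (r j))
    have h3 := mul_mem_gr h.toGr h1 h2
    have h4 : N • χ + ∑ j, r j • ψ j = 0 := by
      have h5 := hrel
      simp only [natCast_zsmul] at h5
      exact h5
    rw [h4] at h3
    exact h3
  have hbr : ∀ j, π i ∣ br (π j) (s ^ N * ∏ j, π j ^ r j) := by
    intro j
    have h1 : br (π j) (∏ l, π l ^ r l) = 0 := by
      have h2 : ∏ l, π l ^ r l ∈ Cen {π j} := by
        refine Subalgebra.prod_mem _ fun l _ => Subalgebra.pow_mem _ ?_ _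
        rw [mem_Cen]
        rintro g rfl
        exact hPPC k m d W K H f π ψ a c0 h l j
      rw [mem_Cen] at h2
      rw [br_anti, h2 (π j) rfl, neg_zero]
    rw [br_mul, h1, mul_zero, zero_add, br_pow]
    exact ((hdv j).mul_left _).mul_left _
  obtain ⟨c, hc⟩ := hCKP k m d W K H f π ψ a c0 h i _ hyK hyW hbr
  have hc0 : c = 0 := by
    obtain ⟨t, ht⟩ := hc
    have h1 := congrArg constantCoeff ht
    rw [map_mul, hvanp, zero_mul, map_sub, map_mul, map_pow, hvan, zero_pow hN.ne', zero_mul,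
      zero_sub, constantCoeff_C, neg_eq_zero] at h1
    exact h1
  rw [hc0, map_zero, sub_zero] at hc
  refine ⟨0, ?_, fun _ => rfl⟩
  rw [map_zero, sub_zero]
  rcases (h.pp i).dvd_or_dvd hc with h1 | h1
  · exact (h.pp i).dvd_of_dvd_pow h1
  · exfalso
    obtain ⟨j, -, hj⟩ := (h.pp i).exists_mem_finset_dvd h1
    by_cases hji : i = j
    · rw [← hji, hri, pow_zero] at hj
      exact (h.pp i).not_isUnit (isUnit_of_dvd_one hj)
    · exact h.na i j hji ((h.pp i).dvd_of_dvd_pow hj)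

end Pool.Agent.H88.TG
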