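import Pool.Agent.H15.TG.Targets

/-!
# MP_51eb24_ag, board tga_modules, row REA
-/

set_option autoImplicit false

open MvPolynomial Pool.Agent.H2.ST Pool.Agent.H15.TG

namespace Pool.Agent.H88.TG

/-- fewer equations than unknowns over the integers -/
theorem exists_int {T : Type} [Fintype T] {n : ℕ} (hT : Fintype.card T < n)
    (u : T → Fin n → ℤ) : ∃ l : Fin n → ℤ, l ≠ 0 ∧ ∀ t, ∑ j, l j * u t j = 0 := by
  have h1 : ¬ LinearIndependent ℤ (fun j : Fin n => (fun t => u t j : T → ℤ)) := by
    intro h
    have h2 := h.fintype_card_le_finrank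
    rw [Module.finrank_fintype_fun_eq_card, Fintype.card_fin] at h2
    omega
  rw [Fintype.not_linearIndependent_iff] at h1
  obtain ⟨g, hg, i, hi⟩ := h1
  refine ⟨g, fun h => hi (by rw [h]; rfl), ?_⟩
  intro t
  have h2 := congrFun hg t
  rw [Finset.sum_apply] at h2
  exact h2

theorem pf_REA : T_REA := by
  intro n w hw
  classical
  obtain ⟨c, hc0, hc⟩ := exists_int (T := Fin n) (n := n + 1) (by rw [Fintype.card_fin]; omega)
    (fun t i => w i t)
  have hcw : ∑ i, c i • w i = 0 := by
    funext t
    rw [Finset.sum_apply]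
    exact hc t
  -- a functional killing all but two indices
  have hdot : ∀ (e : Fin (n + 1) → ℤ), ∑ i, e i • w i = 0 → ∀ l : Fin n → ℤ,
      ∑ i, e i * ∑ j, l j * w i j = 0 := by
    intro e he l
    have h1 : ∑ j, l j * (∑ i, e i • w i) j = 0 := by rw [he]; simp
    rw [← h1]
    simp only [Finset.sum_apply, Pi.smul_apply, smul_eq_mul, Finset.mul_sum]
    rw [Finset.sum_comm]
    refine Finset.sum_congr rfl fun j _ => Finset.sum_congr rfl fun i _ => ?_
    ring
  have hone : ∀ (e : Fin (n + 1) → ℤ), ∑ i, e i • w i = 0 → ∀ (l : Fin n → ℤ) (i : Fin (n + 1)),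
      e i ≠ 0 → (∀ j, j ≠ i → e j = 0 ∨ ∑ t, l t * w j t = 0) → ∑ t, l t * w i t = 0 := by
    intro e he l i hei hj
    have h1 := hdot e he l
    rw [Finset.sum_eq_single i] at h1
    · rcases mul_eq_zero.1 h1 with h | h
      · exact absurd h hei
      · exact h
    · intro j _ hji
      rcases hj j hji with h | h
      · rw [h, zero_mul]
      · rw [h, mul_zero]
    · intro h
      exact absurd (Finset.mem_univ _) h
  have htwo : ∀ i i1 : Fin (n + 1), i ≠ i1 → ∃ l : Fin n → ℤ, l ≠ 0 ∧
      ∀ j, j ≠ i → j ≠ i1 → ∑ t, l t * w j t = 0 := by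
    intro i i1 hii
    obtain ⟨l, hl, hl2⟩ := exists_int (T := {j : Fin (n + 1) // j ≠ i ∧ j ≠ i1}) (n := n) (by
      rw [Fintype.card_subtype]
      have h1 : (Finset.univ.filter fun j : Fin (n + 1) => j ≠ i ∧ j ≠ i1) ⊆
          (Finset.univ.erase i).erase i1 := by
        intro j hj
        rw [Finset.mem_filter] at hj
        rw [Finset.mem_erase, Finset.mem_erase]
        exact ⟨hj.2.2, hj.2.1, Finset.mem_univ _⟩
      have h2 := Finset.card_le_card h1
      have h3 : i1 ∈ Finset.univ.erase i := Finset.mem_erase.2 ⟨hii.symm, Finset.mem_univ _⟩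
      rw [Finset.card_erase_of_mem h3, Finset.card_erase_of_mem (Finset.mem_univ _),
        Finset.card_univ, Fintype.card_fin] at h2
      have h4 : 0 < (Finset.univ.erase i).card := Finset.card_pos.2 ⟨i1, h3⟩
      rw [Finset.card_erase_of_mem (Finset.mem_univ _), Finset.card_univ, Fintype.card_fin] at h4
      omega) (fun j t => w j.1 t)
    exact ⟨l, hl, fun j h1 h2 => hl2 ⟨j, h1, h2⟩⟩
  obtain ⟨i1, hi1⟩ : ∃ i, c i ≠ 0 := by
    by_contra h
    push Not at h
    exact hc0 (funext h)
  refine ⟨c, hc0, hcw, ?_, ?_⟩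
  · intro e he
    refine ⟨e i1, c i1, hi1, ?_⟩
    -- the combination vanishes
    set e' : Fin (n + 1) → ℤ := fun i => c i1 * e i - e i1 * c i with he'
    have he'0 : ∑ i, e' i • w i = 0 := by
      have h1 : ∀ i, e' i • w i = c i1 • (e i • w i) - e i1 • (c i • w i) := by
        intro i
        rw [smul_smul, smul_smul, ← sub_smul]
      rw [Finset.sum_congr rfl fun i _ => h1 i, Finset.sum_sub_distrib, ← Finset.smul_sum,
        ← Finset.smul_sum, he, hcw, smul_zero, smul_zero, sub_zero]
    intro i
    by_contra hne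
    have hi : e' i ≠ 0 := by
      intro h
      apply hne
      have : c i1 * e i - e i1 * c i = 0 := h
      linarith
    have hii : i ≠ i1 := by
      rintro rfl
      apply hi
      show c i * e i - e i * c i = 0
      ring
    obtain ⟨l, hl0, hl⟩ := htwo i i1 hii
    have e1 : e' i1 = 0 := by
      show c i1 * e i1 - e i1 * c i1 = 0
      ring
    have h1 : ∑ t, l t * w i t = 0 := by
      refine hone e' he'0 l i hi fun j hj => ?_
      by_cases hj1 : j = i1
      · left
        rw [hj1]
        exact e1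
      · exact Or.inr (hl j hj hj1)
    have h2 : ∑ t, l t * w i1 t = 0 := by
      refine hone c hcw l i1 hi1 fun j hj => ?_
      by_cases hji : j = i
      · right
        rw [hji]
        exact h1
      · exact Or.inr (hl j hji hj)
    obtain ⟨j, hj⟩ := hw l hl0
    apply hj
    by_cases hji : j = i
    · rw [hji]
      exact h1
    · by_cases hj1 : j = i1
      · rw [hj1]
        exact h2
      · exact hl j hji hj1
  · intro i hci
    have hii : i ≠ i1 := by
      rintro rfl
      exact hi1 hci
    obtain ⟨l, hl0, hl⟩ := htwo i i1 hii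
    have h2 : ∑ t, l t * w i1 t = 0 := by
      refine hone c hcw l i1 hi1 fun j hj => ?_
      by_cases hji : j = i
      · left
        rw [hji]
        exact hci
      · exact Or.inr (hl j hji hj)
    have h3 : ∀ j, j ≠ i → ∑ t, l t * w j t = 0 := by
      intro j hj
      by_cases hj1 : j = i1
      · rw [hj1]
        exact h2
      · exact hl j hj hj1
    have h4 : ∑ t, l t * w i t ≠ 0 := by
      obtain ⟨j, hj⟩ := hw l hl0
      by_cases hji : j = i
      · rw [← hji]
        exact hj
      · exact absurd (h3 j hji) hj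
    have hmk : ∀ l : Fin n → ℤ, ∃ π : (Fin n → ℤ) →+ ℤ, ∀ x, π x = ∑ t, l t * x t := by
      intro l
      refine ⟨⟨⟨fun x => ∑ t, l t * x t, by simp⟩, ?_⟩, fun x => rfl⟩
      intro x y
      show ∑ t, l t * (x + y) t = ∑ t, l t * x t + ∑ t, l t * y t
      rw [← Finset.sum_add_distrib]
      refine Finset.sum_congr rfl fun t _ => ?_
      rw [Pi.add_apply, mul_add]
    rcases lt_or_gt_of_ne h4 with h | h
    · obtain ⟨π, hπ⟩ := hmk (fun t => -l t)
      refine ⟨π, ?_, ?_⟩
      · rw [hπ, show ∑ t, -l t * w i t = -∑ t, l t * w i t by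
          rw [← Finset.sum_neg_distrib]
          exact Finset.sum_congr rfl fun t _ => by ring]
        linarith
      · intro j hj
        rw [hπ, show ∑ t, -l t * w j t = -∑ t, l t * w j t by
          rw [← Finset.sum_neg_distrib]
          exact Finset.sum_congr rfl fun t _ => by ring, h3 j hj, neg_zero]
    · obtain ⟨π, hπ⟩ := hmk l
      refine ⟨π, ?_, ?_⟩
      · rw [hπ]
        exact h
      · intro j hj
        rw [hπ]
        exact h3 j hj

end Pool.Agent.H88.TG
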